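import Pool.Agent.H384R3.PhyloSpine

set_option autoImplicit false

namespace Pool.Agent.H384R3

/-! ### The finite check for pairs of caterpillars of size seven -/

/-- The capacities, as a function on `ℕ`. -/
def capN (v : ℕ) : ℕ := if v = 0 ∨ v = 4 then 2 else 1

/-- The blocks `X`, `Y` occupy disjoint intervals of positions. -/
def sepXY (a X Y : List ℕ) : Bool :=
  X.all (fun x => Y.all (fun y => decide (a.getD x 0 < a.getD y 0))) ||
  X.all (fun x => Y.all (fun y => decide (a.getD y 0 < a.getD x 0)))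

/-- The table of partitions: the class function, the class with three elements and the class with
two elements. -/
def tbl : List (List ℕ × List ℕ × List ℕ) := [
  ([0, 0, 0, 1, 1, 2, 3], [0, 1, 2], [3, 4]),
  ([0, 1, 2, 0, 3, 3, 3], [4, 5, 6], [0, 3]),
  ([0, 0, 1, 1, 2, 1, 3], [2, 3, 5], [0, 1]),
  ([0, 1, 1, 2, 1, 3, 3], [1, 2, 4], [5, 6]),
  ([0, 1, 1, 1, 2, 2, 3], [1, 2, 3], [4, 5]),
  ([0, 1, 0, 2, 2, 3, 2], [3, 4, 6], [0, 2]),
  ([0, 0, 1, 2, 1, 3, 1], [2, 4, 6], [0, 1]),
  ([0, 1, 0, 2, 0, 3, 3], [0, 2, 4], [5, 6]),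
  ([0, 1, 1, 2, 2, 3, 2], [3, 4, 6], [1, 2]),
  ([0, 1, 0, 0, 2, 2, 3], [0, 2, 3], [4, 5]),
  ([0, 1, 1, 1, 2, 3, 2], [1, 2, 3], [4, 6]),
  ([0, 0, 1, 0, 2, 2, 3], [0, 1, 3], [4, 5]),
  ([0, 1, 0, 2, 2, 2, 3], [3, 4, 5], [0, 2]),
  ([0, 1, 2, 0, 0, 3, 3], [0, 3, 4], [5, 6]),
  ([0, 0, 0, 1, 2, 1, 3], [0, 1, 2], [3, 5]),
  ([0, 1, 0, 0, 2, 3, 2], [0, 2, 3], [4, 6]),
  ([0, 1, 1, 2, 2, 2, 3], [3, 4, 5], [1, 2])]

/-- Some partition of the table is separated for the positions `a`. -/
def good (a : List ℕ) : Bool := tbl.any (fun e => sepXY a e.2.1 e.2.2)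

/-- Enumeration of all lists of positions with the right capacities. -/
def enumA : ℕ → List ℕ → Bool
  | 0, l => good l
  | n + 1, l => (List.range 5).all (fun v => decide (capN v ≤ l.count v) || enumA n (v :: l))

lemma enumA_true : enumA 7 [] = true := by decide +kernel

lemma enumA_sound (a : ℕ → ℕ) (ha : ∀ i, a i < 5)
    (hc : ∀ v, ((List.range' 0 7).map a).count v ≤ capN v) :
    ∀ n, n ≤ 7 → enumA n ((List.range' n (7 - n)).map a) = true →
      good ((List.range' 0 7).map a) = true := by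
  intro n
  induction n with
  | zero => intro _ h; simpa [enumA] using h
  | succ n ih =>
    intro hn h
    apply ih (by omega)
    have e1 : (List.range' n (7 - n)).map a = a n :: (List.range' (n + 1) (7 - (n + 1))).map a := by
      have : 7 - n = (7 - (n + 1)) + 1 := by omega
      rw [this, List.range'_succ]
      simp
    rw [e1]
    rw [enumA, List.all_eq_true] at h
    have h2 := h (a n) (List.mem_range.2 (ha n))
    rw [Bool.or_eq_true] at h2
    rcases h2 with h2 | h2
    · exfalso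
      rw [decide_eq_true_eq] at h2
      have h3 : ((List.range' n (7 - n)).map a).count (a n) ≤
          ((List.range' 0 7).map a).count (a n) := by
        apply List.Sublist.count_le
        apply List.Sublist.map
        have : List.range' 0 7 = List.range' 0 n ++ List.range' n (7 - n) := by
          have := List.range'_append (s := 0) (m := n) (n := 7 - n) (step := 1)
          simp only [zero_add, one_mul] at this
          rw [this]
          congr 1
          omega
        rw [this]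
        exact List.sublist_append_right _ _
      rw [e1, List.count_cons_self] at h3
      have h4 := hc (a n)
      omega
    · exact h2

/-- The class function of an entry of the table. -/
def pf (e : List ℕ × List ℕ × List ℕ) (i : Fin 7) : Fin 4 := Fin.ofNat 4 (e.1.getD i.val 0)

lemma tbl_consistent1 : ∀ e ∈ tbl,
    ∀ i j : Fin 7, i ≠ j → pf e i = pf e j →
      (i.val ∈ e.2.1 ∧ j.val ∈ e.2.1) ∨ (i.val ∈ e.2.2 ∧ j.val ∈ e.2.2) := by
  decide +kernel

lemma tbl_consistent2 : ∀ e ∈ tbl,
    (∀ i j : Fin 7, i.val ∈ e.2.1 → j.val ∈ e.2.1 → pf e i = pf e j) ∧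
    (∀ i j : Fin 7, i.val ∈ e.2.2 → j.val ∈ e.2.2 → pf e i = pf e j) := by
  decide +kernel

lemma tbl_consistent3 : ∀ e ∈ tbl, ∀ c : Fin 4, ∃ i : Fin 7, pf e i = c := by
  decide +kernel

lemma tbl_consistent4 : ∀ e ∈ tbl, ∃ i j : Fin 7, i ≠ j ∧ pf e i = pf e j ∧
    ∃ k l : Fin 7, k ≠ l ∧ pf e k = pf e l ∧ pf e i ≠ pf e k := by
  decide +kernel

lemma tbl_consistent5 : ∀ e ∈ tbl, sepXY [0, 0, 1, 2, 3, 4, 4] e.2.1 e.2.2 = true := by
  decide +kernel

lemma sep_of_sepXY (e : List ℕ × List ℕ × List ℕ) (he : e ∈ tbl) (a : Fin 7 → Fin 5)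
    (l : List ℕ) (hl : ∀ i : Fin 7, l.getD i.val 0 = (a i).val)
    (h : sepXY l e.2.1 e.2.2 = true) : Sep a (pf e) := by
  have h1 := tbl_consistent1 e he
  obtain ⟨h2, h3⟩ := tbl_consistent2 e he
  have key : ∀ i i' k k' : Fin 7, i.val ∈ e.2.1 → i'.val ∈ e.2.1 → k.val ∈ e.2.2 →
      k'.val ∈ e.2.2 → (a i < a k ∧ a i < a k' ∧ a i' < a k ∧ a i' < a k') ∨
      (a k < a i ∧ a k' < a i ∧ a k < a i' ∧ a k' < a i') := by
    intro i i' k k' hi hi' hk hk'
    rw [sepXY, Bool.or_eq_true] at h
    rcases h with h | h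
    · left
      simp only [List.all_eq_true, decide_eq_true_eq] at h
      have f : ∀ x y : Fin 7, x.val ∈ e.2.1 → y.val ∈ e.2.2 → a x < a y := by
        intro x y hx hy
        have := h _ hx _ hy
        rw [hl, hl] at this
        exact Fin.lt_def.2 this
      exact ⟨f _ _ hi hk, f _ _ hi hk', f _ _ hi' hk, f _ _ hi' hk'⟩
    · right
      simp only [List.all_eq_true, decide_eq_true_eq] at h
      have f : ∀ x y : Fin 7, x.val ∈ e.2.1 → y.val ∈ e.2.2 → a y < a x := by
        intro x y hx hy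
        have := h _ hx _ hy
        rw [hl, hl] at this
        exact Fin.lt_def.2 this
      exact ⟨f _ _ hi hk, f _ _ hi hk', f _ _ hi' hk, f _ _ hi' hk'⟩
  intro i i' k k' hii hkk hpi hpk hne
  rcases h1 i i' hii hpi with ⟨ha, hb⟩ | ⟨ha, hb⟩ <;>
  rcases h1 k k' hkk hpk with ⟨hc, hd⟩ | ⟨hc, hd⟩
  · exact absurd (h2 i k ha hc) hne
  · exact key i i' k k' ha hb hc hd
  · rcases key k k' i i' hc hd ha hb with h | h
    · right; exact ⟨h.1, h.2.2.1, h.2.1, h.2.2.2⟩
    · left; exact ⟨h.1, h.2.2.1, h.2.1, h.2.2.2⟩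
  · exact absurd (h3 i k ha hc) hne

/-- The standard attachment map. -/
def std : Fin 7 → Fin 5 := ![0, 0, 1, 2, 3, 4, 4]

lemma exists_common_std (a : Fin 7 → Fin 5)
    (ha : ∀ j : Fin 5, (Finset.univ.filter (fun i => a i = j)).card = cap j) :
    ∃ p : Fin 7 → Fin 4, Function.Surjective p ∧
      (∃ i j k l, i ≠ j ∧ k ≠ l ∧ p i = p j ∧ p k = p l ∧ p i ≠ p k) ∧
      Sep std p ∧ Sep a p := by
  set a' : ℕ → ℕ := fun i => if h : i < 7 then (a ⟨i, h⟩).val else 0 with ha'
  have h5 : ∀ i, a' i < 5 := by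
    intro i
    simp only [ha']
    split_ifs with h
    · exact (a ⟨i, h⟩).isLt
    · norm_num
  have hlist : (List.range' 0 7).map a' = [(a 0).val, (a 1).val, (a 2).val, (a 3).val, (a 4).val,
      (a 5).val, (a 6).val] := rfl
  have hcount : ∀ v, ((List.range' 0 7).map a').count v ≤ capN v := by
    intro v
    have hcc : ((List.range' 0 7).map a').count v =
        (Finset.univ.filter (fun i => (a i).val = v)).card := by
      rw [hlist, Finset.card_filter, Fin.sum_univ_seven]
      simp only [List.count_cons, List.count_nil, beq_iff_eq]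
      ring
    rw [hcc]
    by_cases hv : v < 5
    · have h1 := ha ⟨v, hv⟩
      have h2 : (Finset.univ.filter (fun i => (a i).val = v)).card =
          (Finset.univ.filter (fun i => a i = ⟨v, hv⟩)).card := by
        congr 1
        ext i
        simp [Fin.ext_iff]
      rw [h2, h1]
      exact (by decide : ∀ j : Fin 5, cap j ≤ capN j.val) ⟨v, hv⟩
    · have : (Finset.univ.filter (fun i => (a i).val = v)) = ∅ := by
        ext i
        have := (a i).isLt
        simp
        omega
      rw [this]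
      simp
  have hg := enumA_sound a' h5 hcount 7 le_rfl (by
    have : (List.range' 7 (7 - 7)).map a' = [] := by simp
    rw [this]
    exact enumA_true)
  rw [good, List.any_eq_true] at hg
  obtain ⟨e, he, hs⟩ := hg
  have h4 := tbl_consistent3 e he
  obtain ⟨i, j, hij, hpij, k, l, hkl, hpkl, hpik⟩ := tbl_consistent4 e he
  have h7 := tbl_consistent5 e he
  refine ⟨pf e, h4, ⟨i, j, k, l, hij, hkl, hpij, hpkl, hpik⟩, ?_, ?_⟩
  · refine sep_of_sepXY e he std _ ?_ h7
    decide
  · refine sep_of_sepXY e he a _ ?_ hs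
    intro i
    rw [hlist]
    fin_cases i <;> rfl

/-- For two attachment maps with the caterpillar fibres there is a common separated partition with
two nontrivial classes. -/
lemma exists_common (a b : Fin 7 → Fin 5)
    (ha : ∀ j : Fin 5, (Finset.univ.filter (fun i => a i = j)).card = cap j)
    (hb : ∀ j : Fin 5, (Finset.univ.filter (fun i => b i = j)).card = cap j) :
    ∃ p : Fin 7 → Fin 4, Function.Surjective p ∧
      (∃ i j k l, i ≠ j ∧ k ≠ l ∧ p i = p j ∧ p k = p l ∧ p i ≠ p k) ∧
      Sep a p ∧ Sep b p := by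
  have hstd : ∀ j : Fin 5, (Finset.univ.filter (fun i => std i = j)).card = cap j := by decide
  have hcard : ∀ j, Nonempty ({i // std i = j} ≃ {i // a i = j}) := by
    intro j
    refine ⟨Fintype.equivOfCardEq ?_⟩
    rw [Fintype.card_subtype, Fintype.card_subtype, hstd, ha]
  let ε := fun j => (hcard j).some
  let σ : Fin 7 ≃ Fin 7 := (Equiv.sigmaFiberEquiv std).symm.trans
    ((Equiv.sigmaCongrRight ε).trans (Equiv.sigmaFiberEquiv a))
  have hσ : ∀ i, a (σ i) = std i := by
    intro i
    exact (ε (std i) ⟨i, rfl⟩).2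
  obtain ⟨p, hp, ⟨i, j, k, l, h1, h2, h3, h4, h5⟩, hs1, hs2⟩ := exists_common_std (b ∘ σ) (by
    intro j
    rw [← hb j]
    apply Finset.card_bij (fun i _ => σ i)
    · intro i hi
      simpa using hi
    · intro x _ y _ h
      exact σ.injective h
    · intro y hy
      refine ⟨σ.symm y, ?_, by simp⟩
      simpa using hy)
  refine ⟨p ∘ σ.symm, hp.comp σ.symm.surjective,
    ⟨σ i, σ j, σ k, σ l, σ.injective.ne h1, σ.injective.ne h2, ?_, ?_, ?_⟩, ?_, ?_⟩
  · simpa using h3
  · simpa using h4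
  · simpa using h5
  · intro i i' k k' hii hkk hpi hpk hne
    have := hs1 (σ.symm i) (σ.symm i') (σ.symm k) (σ.symm k') (σ.symm.injective.ne hii)
      (σ.symm.injective.ne hkk) hpi hpk hne
    have e : ∀ x, std (σ.symm x) = a x := by
      intro x
      rw [← hσ, Equiv.apply_symm_apply]
    simpa only [e] using this
  · intro i i' k k' hii hkk hpi hpk hne
    have := hs2 (σ.symm i) (σ.symm i') (σ.symm k) (σ.symm k') (σ.symm.injective.ne hii)
      (σ.symm.injective.ne hkk) hpi hpk hne
    simpa only [Function.comp, Equiv.apply_symm_apply] using this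

end Pool.Agent.H384R3
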