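import Mathlib

set_option autoImplicit false

/-!
# Phylogenetic trees and the partitions they induce

A phylogenetic tree of size `n` is a finite tree whose vertices have degree one or three, the
vertices of degree one being labelled by `Fin n`; the one-vertex tree is the tree of size one.
Partitions of the label set are encoded as equivalence relations (`Setoid (Fin n)`).
-/

namespace Pool.Agent.H384R3

/-- A phylogenetic tree of size `n`: a finite tree, whose vertices of degree at most one (the
leaves; degree zero only occurs for the one-vertex tree) are labelled bijectively by `Fin n`, and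
whose other vertices all have degree three. -/
structure PhyloTree (n : ℕ) where
  /-- the vertices -/
  V : Type
  finite_V : Finite V
  /-- the tree -/
  graph : SimpleGraph V
  isTree : graph.IsTree
  /-- the labelled leaves -/
  leaf : Fin n → V
  leaf_injective : Function.Injective leaf
  mem_range_leaf : ∀ v, v ∈ Set.range leaf ↔ (graph.neighborSet v).ncard ≤ 1
  degree_internal : ∀ v, v ∉ Set.range leaf → (graph.neighborSet v).ncard = 3

/-- A caterpillar: after deleting the leaves the remaining (internal) vertices form a path on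
`n - 2` vertices (no vertex at all for `n ≤ 2`). -/
def PhyloTree.IsCaterpillar {n : ℕ} (T : PhyloTree n) : Prop :=
  Nonempty (T.graph.induce {v | v ∉ Set.range T.leaf} ≃g SimpleGraph.pathGraph (n - 2))

/-- The partitions of the label set obtained by deleting a set `D` of edges: two labels are in the
same class when their leaves are in the same component of the remaining graph. -/
def PhyloTree.partitions {n : ℕ} (T : PhyloTree n) : Set (Setoid (Fin n)) :=
  {r | ∃ D : Set (Sym2 T.V), D ⊆ T.graph.edgeSet ∧
    ∀ i j, r i j ↔ (T.graph.deleteEdges D).Reachable (T.leaf i) (T.leaf j)}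

/-- The number of partitions with exactly `k` classes which are induced by both trees. -/
noncomputable def common {n : ℕ} (T F : PhyloTree n) (k : ℕ) : ℕ :=
  (T.partitions ∩ F.partitions ∩ {r | Nat.card (Quotient r) = k}).ncard

/-- The minimum of `common T F k` over all pairs of phylogenetic trees of size `n`. -/
noncomputable def s (n k : ℕ) : ℕ := sInf {m | ∃ T F : PhyloTree n, m = common T F k}

/-- The minimum of `common T F k` over all pairs of caterpillars of size `n`. -/
noncomputable def c (n k : ℕ) : ℕ :=
  sInf {m | ∃ T F : PhyloTree n, T.IsCaterpillar ∧ F.IsCaterpillar ∧ m = common T F k}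

/-! ### General lemmas -/

section General

variable {V : Type} {G : SimpleGraph V}

lemma reach_closed (S : Set V) (hS : ∀ u v, u ∈ S → G.Adj u v → v ∈ S) {a b : V}
    (h : G.Reachable a b) (ha : a ∈ S) : b ∈ S := by
  obtain ⟨p⟩ := h
  induction p with
  | nil => exact ha
  | cons h _ ih => exact ih (hS _ _ ha h)

/-- If `v` separates `a` from `b` in `G`, a connection from `a` to `b` in a subgraph passes
through `v`. -/
lemma reach_through {H : SimpleGraph V} (hHG : H ≤ G) (v : V) (comp : V → ℕ)
    (hcomp : ∀ u w, G.Adj u w → u ≠ v → w ≠ v → comp u = comp w) {a b : V}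
    (h : H.Reachable a b) (hab : comp a ≠ comp b) : H.Reachable a v := by
  by_contra hv
  have key : b ∈ {x | H.Reachable a x ∧ comp x = comp a} := by
    refine reach_closed (G := H) _ ?_ h ⟨SimpleGraph.Reachable.refl _, rfl⟩
    rintro u w ⟨h1, h2⟩ huw
    have h3 : H.Reachable a w := h1.trans huw.reachable
    refine ⟨h3, ?_⟩
    rw [← h2]
    refine (hcomp u w (hHG huw) ?_ ?_).symm
    · rintro rfl; exact hv h1
    · rintro rfl; exact hv h3
  exact hab key.2.symm

end General

/-- The pairwise separation condition: any two pairs of elements in different classes of `p` occupy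
disjoint intervals of positions. -/
def Sep {n m : ℕ} {K : Type} (att : Fin n → Fin m) (p : Fin n → K) : Prop :=
  ∀ i i' k k', i ≠ i' → k ≠ k' → p i = p i' → p k = p k' → p i ≠ p k →
    (att i < att k ∧ att i < att k' ∧ att i' < att k ∧ att i' < att k') ∨
    (att k < att i ∧ att k' < att i ∧ att k < att i' ∧ att k' < att i')

/-- The spine of a caterpillar with the attachment map. -/
structure Spine {n : ℕ} (T : PhyloTree n) (m : ℕ) where
  w : Fin m → T.V
  att : Fin n → Fin m
  w_adj : ∀ i j : Fin m, i.val + 1 = j.val → T.graph.Adj (w i) (w j)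
  leaf_adj : ∀ i, T.graph.Adj (T.leaf i) (w (att i))
  w_ne_leaf : ∀ i j, w j ≠ T.leaf i
  w_inj : Function.Injective w

section Spine

variable {n m : ℕ} {T : PhyloTree n} (S : Spine T m) {K : Type} (p : Fin n → K)

/-- The hull of the class `c`. -/
def Spine.H (c : K) : Set T.V :=
  {v | (∃ i, p i = c ∧ v = T.leaf i) ∨
    ∃ i i' j, i ≠ i' ∧ p i = c ∧ p i' = c ∧ S.att i ≤ j ∧ j ≤ S.att i' ∧ v = S.w j}

lemma Spine.H_disj (hs : Sep S.att p) {c c' : K} {v : T.V} (h : v ∈ S.H p c) (h' : v ∈ S.H p c') :
    c = c' := by
  by_contra hne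
  rcases h with ⟨i, hi, hv⟩ | ⟨i, i', j, hii, hi, hi', h1, h2, hv⟩ <;>
  rcases h' with ⟨k, hk, hv'⟩ | ⟨k, k', j', hkk, hk, hk', h1', h2', hv'⟩
  · have : i = k := T.leaf_injective (hv.symm.trans hv')
    subst this
    exact hne (hi.symm.trans hk)
  · exact S.w_ne_leaf _ _ (hv'.symm.trans hv)
  · exact S.w_ne_leaf _ _ (hv.symm.trans hv')
  · have hj : j = j' := S.w_inj (hv.symm.trans hv')
    subst hj
    rcases hs i i' k k' hii hkk (hi.trans hi'.symm) (hk.trans hk'.symm)
      (by rw [hi, hk]; exact hne) with h | h
    · exact absurd (lt_of_lt_of_le h.2.2.1 (h1'.trans h2)) (lt_irrefl _)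
    · exact absurd (lt_of_lt_of_le h.2.1 (h1.trans h2')) (lt_irrefl _)

/-- The deleted edges. -/
def Spine.D : Set (Sym2 T.V) :=
  {e | e ∈ T.graph.edgeSet ∧ ¬ ∃ c, ∀ x ∈ e, x ∈ S.H p c}

lemma Spine.adj_of {c : K} {x y : T.V} (hxy : T.graph.Adj x y) (hx : x ∈ S.H p c)
    (hy : y ∈ S.H p c) : (T.graph.deleteEdges (S.D p)).Adj x y := by
  rw [SimpleGraph.deleteEdges_adj]
  refine ⟨hxy, fun h => h.2 ⟨c, ?_⟩⟩
  intro z hz
  rcases Sym2.mem_iff.1 hz with rfl | rfl
  · exact hx
  · exact hy

lemma Spine.reach_w {c : K} (a b : ℕ) (hb : a + b < m)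
    (hH : ∀ j : Fin m, a ≤ j.val → j.val ≤ a + b → S.w j ∈ S.H p c) :
    (T.graph.deleteEdges (S.D p)).Reachable (S.w ⟨a, by omega⟩) (S.w ⟨a + b, hb⟩) := by
  induction b with
  | zero => exact SimpleGraph.Reachable.refl _
  | succ b ih =>
    refine (ih (by omega) (fun j h1 h2 => hH j h1 (by omega))).trans ?_
    refine (S.adj_of p (c := c) (S.w_adj _ _ ?_) (hH _ ?_ ?_) (hH _ ?_ ?_)).reachable
    all_goals (simp only; try omega)

lemma Spine.mem_partitions (hs : Sep S.att p) : Setoid.ker p ∈ T.partitions := by
  refine ⟨S.D p, fun e he => he.1, fun i j => ?_⟩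
  rw [Setoid.ker_def]
  constructor
  · -- same class implies reachable
    have main : ∀ i j : Fin n, S.att i ≤ S.att j → p i = p j →
        (T.graph.deleteEdges (S.D p)).Reachable (T.leaf i) (T.leaf j) := by
      intro i j hle h
      by_cases hij : i = j
      · subst hij; exact SimpleGraph.Reachable.refl _
      have hl1 : T.leaf i ∈ S.H p (p i) := Or.inl ⟨i, rfl, rfl⟩
      have hl2 : T.leaf j ∈ S.H p (p i) := Or.inl ⟨j, h.symm, rfl⟩
      have hw : ∀ x : Fin m, S.att i ≤ x → x ≤ S.att j → S.w x ∈ S.H p (p i) := fun x h1 h2 =>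
        Or.inr ⟨i, j, x, hij, rfl, h.symm, h1, h2, rfl⟩
      have e1 := (S.adj_of p (S.leaf_adj i) hl1 (hw _ le_rfl hle)).reachable
      have e2 := (S.adj_of p (S.leaf_adj j) hl2 (hw _ hle le_rfl)).reachable
      have e3 := S.reach_w p (c := p i) (S.att i).val ((S.att j).val - (S.att i).val)
        (by have := (S.att j).isLt; have := (S.att i).isLt; omega)
        (fun x h1 h2 => hw x (Fin.le_def.2 h1) (Fin.le_def.2 (by
          have := Fin.le_def.1 hle; omega)))
      have e4 : (⟨(S.att i).val + ((S.att j).val - (S.att i).val), by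
          have := (S.att j).isLt; have := Fin.le_def.1 hle; omega⟩ : Fin m) = S.att j := by
        apply Fin.ext
        have := Fin.le_def.1 hle
        simp only
        omega
      rw [e4] at e3
      exact (e1.trans e3).trans e2.symm
    intro h
    rcases le_total (S.att i) (S.att j) with hle | hle
    · exact main i j hle h
    · exact (main j i hle h.symm).symm
  · intro h
    have key : T.leaf j ∈ S.H p (p i) := by
      refine reach_closed _ ?_ h (Or.inl ⟨i, rfl, rfl⟩)
      intro u v hu huv
      rw [SimpleGraph.deleteEdges_adj] at huv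
      obtain ⟨h1, h2⟩ := huv
      by_contra hv
      apply h2
      refine ⟨h1, ?_⟩
      rintro ⟨c, hc⟩
      have hu' := hc u (Sym2.mem_mk_left _ _)
      have hv' := hc v (Sym2.mem_mk_right _ _)
      have := S.H_disj p hs hu hu'
      subst this
      exact hv hv'
    have key2 : T.leaf j ∈ S.H p (p j) := Or.inl ⟨j, rfl, rfl⟩
    exact S.H_disj p hs key key2

end Spine

end Pool.Agent.H384R3
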