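import Pool.Agent.H384R3.PhyloCheck

set_option autoImplicit false

namespace Pool.Agent.H384R3

instance finiteSetoid : Finite (Setoid (Fin 7)) :=
  Finite.of_injective (fun r : Setoid (Fin 7) => (⇑r : Fin 7 → Fin 7 → Prop))
    (fun _ _ h => Setoid.eq_iff_rel_eq.2 h)

/-- The class function of the partition with the class `A` and singletons. -/
def pA (A : Finset (Fin 7)) (i : Fin 7) : Option (Fin 7) := if i ∈ A then none else some i

lemma pA_eq {A : Finset (Fin 7)} {i j : Fin 7} (hij : i ≠ j) (h : pA A i = pA A j) :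
    i ∈ A ∧ j ∈ A := by
  unfold pA at h
  split_ifs at h with h1 h2 h2
  · exact ⟨h1, h2⟩
  · exact absurd (Option.some.inj h) hij

lemma pA_of_mem {A : Finset (Fin 7)} {i j : Fin 7} (hi : i ∈ A) (hj : j ∈ A) :
    pA A i = pA A j := by
  simp [pA, hi, hj]

/-- The partition with the class `A` and singletons. -/
def rA (A : Finset (Fin 7)) : Setoid (Fin 7) := Setoid.ker (pA A)

lemma rA_apply (A : Finset (Fin 7)) (i j : Fin 7) : rA A i j ↔ pA A i = pA A j := Iff.rfl

lemma card_quot_ker {K : Type} (f : Fin 7 → K) :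
    Nat.card (Quotient (Setoid.ker f)) = (Set.range f).ncard := by
  rw [Nat.card_congr (Setoid.quotientKerEquivRange f)]
  rfl

lemma card_rA {A : Finset (Fin 7)} (hA : A.card = 4) : Nat.card (Quotient (rA A)) = 4 := by
  rw [rA, card_quot_ker]
  have h1 : Set.range (pA A) = insert none (some '' ((Aᶜ : Finset (Fin 7)) : Set (Fin 7))) := by
    ext x
    constructor
    · rintro ⟨i, rfl⟩
      by_cases hi : i ∈ A
      · simp [pA, hi]
      · simp [pA, hi]
    · rintro (rfl | ⟨i, hi, rfl⟩)
      · obtain ⟨i, hi⟩ : A.Nonempty := by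
          rw [← Finset.card_pos]; omega
        exact ⟨i, by simp [pA, hi]⟩
      · refine ⟨i, ?_⟩
        have : i ∉ A := by simpa using hi
        simp [pA, this]
  rw [h1, Set.ncard_insert_of_notMem (by simp) (Set.toFinite _),
    Set.ncard_image_of_injective _ (Option.some_injective _), Set.ncard_coe_finset,
    Finset.card_compl, hA]
  rfl

lemma sep_pA (A : Finset (Fin 7)) (a : Fin 7 → Fin 5) : Sep a (pA A) := by
  intro i i' k k' hii hkk hpi hpk hne
  exact absurd (pA_of_mem (pA_eq hii hpi).1 (pA_eq hkk hpk).1) hne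

lemma rA_inj {A B : Finset (Fin 7)} (hA : 2 ≤ A.card) (hB : 2 ≤ B.card) (h : rA A = rA B) :
    A = B := by
  have main : ∀ A B : Finset (Fin 7), 2 ≤ A.card → rA A = rA B → A ⊆ B := by
    intro A B hA h i hi
    obtain ⟨j, hj, hne⟩ := Finset.exists_mem_ne (show 1 < A.card by omega) i
    have h1 : rA A i j := pA_of_mem hi hj
    rw [h] at h1
    exact (pA_eq hne.symm h1).1
  exact Finset.Subset.antisymm (main A B hA h) (main B A hB h.symm)

/-- The partitions with one class of size four and singletons. -/
def base : Set (Setoid (Fin 7)) := rA '' {A | A.card = 4}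

lemma base_ncard : base.ncard = 35 := by
  rw [base, Set.InjOn.ncard_image]
  · have : {A : Finset (Fin 7) | A.card = 4} =
        ((Finset.powersetCard 4 (Finset.univ : Finset (Fin 7)) : Finset (Finset (Fin 7))) :
          Set (Finset (Fin 7))) := by
      ext A
      simp [Finset.mem_powersetCard]
    rw [this, Set.ncard_coe_finset, Finset.card_powersetCard]
    decide
  · intro A hA B hB h
    have h1 : A.card = 4 := hA
    have h2 : B.card = 4 := hB
    exact rA_inj (by omega) (by omega) h

/-- Any two caterpillars of size seven have at least `36` common partitions into four classes. -/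
lemma lower (T F : PhyloTree 7) (hT : T.IsCaterpillar) (hF : F.IsCaterpillar) :
    36 ≤ common T F 4 := by
  obtain ⟨S, hS⟩ := exists_spine' T hT
  obtain ⟨R, hR⟩ := exists_spine' F hF
  obtain ⟨p, hp, ⟨i, j, k, l, hij, hkl, hpij, hpkl, hne⟩, h1, h2⟩ := exists_common S.att R.att hS hR
  have hnot : Setoid.ker p ∉ base := by
    rintro ⟨A, -, hA⟩
    have e1 : rA A i j := by rw [hA]; exact hpij
    have e2 : rA A k l := by rw [hA]; exact hpkl
    have e3 : rA A i k := pA_of_mem (pA_eq hij e1).1 (pA_eq hkl e2).1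
    rw [hA] at e3
    exact hne e3
  have hsub : insert (Setoid.ker p) base ⊆
      T.partitions ∩ F.partitions ∩ {r | Nat.card (Quotient r) = 4} := by
    rintro r (rfl | ⟨A, hA, rfl⟩)
    · refine ⟨⟨S.mem_partitions p h1, R.mem_partitions p h2⟩, ?_⟩
      change Nat.card _ = 4
      rw [card_quot_ker, hp.range_eq, Set.ncard_univ]
      simp
    · exact ⟨⟨S.mem_partitions _ (sep_pA A _), R.mem_partitions _ (sep_pA A _)⟩, card_rA hA⟩
  have h3 := Set.ncard_le_ncard hsub (Set.toFinite _)
  rw [Set.ncard_insert_of_notMem hnot (Set.toFinite _), base_ncard] at h3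
  exact h3

end Pool.Agent.H384R3
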