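import Pool.Agent.H384R3.PhyloDefs

set_option autoImplicit false

namespace Pool.Agent.H384R3

lemma walk_neighbor {V : Type} {G : SimpleGraph V} {a b : V} (p : G.Walk a b) (h : a ≠ b) :
    ∃ x, G.Adj a x := by
  cases p with
  | nil => exact absurd rfl h
  | cons h _ => exact ⟨_, h⟩

open Classical in
/-- Every caterpillar of size `7` has a spine, with the right number of leaves at each vertex. -/
lemma exists_spine (T : PhyloTree 7) (hT : T.IsCaterpillar) :
    ∃ S : Spine T 5, ∀ j : Fin 5,
      (Finset.univ.filter (fun i => S.att i = j)).card +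
      (Finset.univ.filter (fun j' : Fin 5 => j.val + 1 = j'.val ∨ j'.val + 1 = j.val)).card = 3 := by
  obtain ⟨e⟩ := hT
  have := T.finite_V
  set w : Fin 5 → T.V := fun j => (e.symm j).1 with hw
  have hwr : ∀ j, w j ∉ Set.range T.leaf := fun j => (e.symm j).2
  have hwadj : ∀ i j : Fin 5, T.graph.Adj (w i) (w j) ↔ (i.val + 1 = j.val ∨ j.val + 1 = i.val) := by
    intro i j
    have h1 := e.symm.map_rel_iff (a := i) (b := j)
    rw [SimpleGraph.pathGraph_adj] at h1
    rw [← h1]
    rfl
  have hwinj : Function.Injective w := by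
    intro i j h
    have : e.symm i = e.symm j := Subtype.ext h
    exact e.symm.injective this
  have hex : ∀ x, x ∉ Set.range T.leaf → ∃ j, w j = x := by
    intro x hx
    refine ⟨e ⟨x, hx⟩, ?_⟩
    simp [hw]
  -- uniqueness of the neighbour of a leaf
  have huniq : ∀ i x y, T.graph.Adj (T.leaf i) x → T.graph.Adj (T.leaf i) y → x = y := by
    intro i x y hx hy
    have h1 := (T.mem_range_leaf (T.leaf i)).1 ⟨i, rfl⟩
    exact (Set.ncard_le_one (Set.toFinite _)).1 h1 x hx y hy
  -- the neighbour of a leaf is internal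
  have hnb : ∀ i, ∃ x, T.graph.Adj (T.leaf i) x ∧ x ∉ Set.range T.leaf := by
    intro i
    have hconn := T.isTree.1.preconnected (T.leaf i) (w 0)
    have hne : T.leaf i ≠ w 0 := fun h => hwr 0 ⟨i, h⟩
    obtain ⟨p⟩ := hconn
    have hx : ∃ x, T.graph.Adj (T.leaf i) x := walk_neighbor p hne
    obtain ⟨x, hx⟩ := hx
    refine ⟨x, hx, ?_⟩
    rintro ⟨j, rfl⟩
    have key : w 0 ∈ ({T.leaf i, T.leaf j} : Set T.V) := by
      refine reach_closed (G := T.graph) _ ?_ ⟨p⟩ (by simp)
      intro u v hu huv
      rcases hu with rfl | hu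
      · have := huniq _ _ _ hx huv
        simp [← this]
      · rw [Set.mem_singleton_iff] at hu
        subst hu
        have := huniq _ _ _ hx.symm huv
        simp [← this]
    rcases key with h | h
    · exact hwr 0 ⟨i, h.symm⟩
    · exact hwr 0 ⟨j, (Set.mem_singleton_iff.1 h).symm⟩
  have hatt : ∀ i, ∃ j : Fin 5, T.graph.Adj (T.leaf i) (w j) := by
    intro i
    obtain ⟨x, hx, hx'⟩ := hnb i
    obtain ⟨j, rfl⟩ := hex x hx'
    exact ⟨j, hx⟩
  choose att hatt using hatt
  let S : Spine T 5 :=
    { w := w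
      att := att
      w_adj := fun i j h => (hwadj i j).2 (Or.inl h)
      leaf_adj := hatt
      w_ne_leaf := fun i j h => hwr j ⟨i, h.symm⟩
      w_inj := hwinj }
  refine ⟨S, fun j => ?_⟩
  have h3 := T.degree_internal (w j) (hwr j)
  have hset : T.graph.neighborSet (w j) =
      (T.leaf '' {i | att i = j}) ∪ (w '' {j' | j.val + 1 = j'.val ∨ j'.val + 1 = j.val}) := by
    ext y
    simp only [SimpleGraph.mem_neighborSet, Set.mem_union, Set.mem_image, Set.mem_ofPred_eq]
    constructor
    · intro hy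
      by_cases hyr : y ∈ Set.range T.leaf
      · obtain ⟨i, rfl⟩ := hyr
        refine Or.inl ⟨i, ?_, rfl⟩
        exact hwinj (huniq i _ _ (hatt i) hy.symm)
      · obtain ⟨j', rfl⟩ := hex y hyr
        exact Or.inr ⟨j', (hwadj j j').1 hy, rfl⟩
    · rintro (⟨i, hi, rfl⟩ | ⟨j', hj', rfl⟩)
      · have := (hatt i).symm
        rwa [hi] at this
      · exact (hwadj j j').2 hj'
  rw [hset, Set.ncard_union_eq ?_ (Set.toFinite _) (Set.toFinite _),
    Set.ncard_image_of_injective _ T.leaf_injective, Set.ncard_image_of_injective _ hwinj] at h3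
  · rw [← h3]
    congr 1
    · rw [← Set.ncard_coe_finset]
      congr 1
      ext i
      simp [S]
    · rw [← Set.ncard_coe_finset]
      congr 1
      ext i
      simp
  · rw [Set.disjoint_left]
    rintro _ ⟨i, _, rfl⟩ ⟨j', _, h⟩
    exact hwr j' ⟨i, h.symm⟩

/-- The capacities. -/
def cap : Fin 5 → ℕ := ![2, 1, 1, 1, 2]

lemma exists_spine' (T : PhyloTree 7) (hT : T.IsCaterpillar) :
    ∃ S : Spine T 5, ∀ j : Fin 5, (Finset.univ.filter (fun i => S.att i = j)).card = cap j := by
  obtain ⟨S, hS⟩ := exists_spine T hT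
  refine ⟨S, fun j => ?_⟩
  have h := hS j
  have h2 : ∀ j : Fin 5,
      (Finset.univ.filter (fun j' : Fin 5 => j.val + 1 = j'.val ∨ j'.val + 1 = j.val)).card
      + cap j = 3 := by
    decide
  replace h2 := h2 j
  have h3 : (Finset.univ.filter (fun i => S.att i = j)).card =
      (@Finset.filter _ (fun i => S.att i = j) (fun a => Classical.propDecidable _)
        Finset.univ).card := by
    congr
  have h4 : (Finset.univ.filter (fun j' : Fin 5 => j.val + 1 = j'.val ∨ j'.val + 1 = j.val)).card =
      (@Finset.filter _ (fun j' : Fin 5 => j.val + 1 = j'.val ∨ j'.val + 1 = j.val)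
        (fun a => Classical.propDecidable _) Finset.univ).card := by
    congr
  rw [h4] at h2
  rw [h3]
  omega

end Pool.Agent.H384R3
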