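import Pool.Agent.H384R3.PhyloLower

set_option autoImplicit false

namespace Pool.Agent.H384R3

/-! ### Two explicit trees of size seven

The vertices are `Fin 12`, the leaves are `0, ..., 6`; a tree is given by its parent function, the
root being the vertex `7`. -/

/-- The graph of a parent function. -/
def parGraph (par : Fin 12 → Fin 12) : SimpleGraph (Fin 12) where
  Adj u v := u ≠ v ∧ (par u = v ∨ par v = u)
  symm := ⟨fun _ _ h => ⟨h.1.symm, h.2.symm⟩⟩
  loopless := ⟨fun _ h => h.1 rfl⟩

instance (par : Fin 12 → Fin 12) : DecidableRel (parGraph par).Adj := fun u v =>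
  inferInstanceAs (Decidable (u ≠ v ∧ (par u = v ∨ par v = u)))

lemma parGraph_isTree (par : Fin 12 → Fin 12) (h1 : ∀ v, par^[11] v = 7)
    (h2 : (parGraph par).edgeFinset.card = 11) : (parGraph par).IsTree := by
  rw [SimpleGraph.isTree_iff_connected_and_card]
  refine ⟨⟨?_⟩, ?_⟩
  · have key : ∀ n v, (parGraph par).Reachable v (par^[n] v) := by
      intro n
      induction n with
      | zero => intro v; exact SimpleGraph.Reachable.refl _
      | succ n ih =>
        intro v
        rw [Function.iterate_succ_apply']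
        refine (ih v).trans ?_
        by_cases h : par^[n] v = par (par^[n] v)
        · rw [← h]
        · exact SimpleGraph.Adj.reachable ⟨h, Or.inl rfl⟩
    intro u v
    have hu := key 11 u
    have hv := key 11 v
    rw [h1] at hu hv
    exact hu.trans hv.symm
  · rw [Nat.card_eq_fintype_card, ← SimpleGraph.edgeFinset_card, h2]
    simp

lemma ncard_neighbor (par : Fin 12 → Fin 12) (v : Fin 12) :
    ((parGraph par).neighborSet v).ncard = (Finset.univ.filter ((parGraph par).Adj v)).card := by
  rw [← Set.ncard_coe_finset]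
  congr 1
  ext w
  simp

/-- The leaf with label `i`. -/
def leafV (i : Fin 7) : Fin 12 := Fin.castLE (by norm_num) i

lemma leafV_inj : Function.Injective leafV := Fin.castLE_injective (by norm_num)

/-- A phylogenetic tree of size seven from a parent function. -/
def mkTree (par : Fin 12 → Fin 12) (h1 : ∀ v, par^[11] v = 7)
    (h2 : (parGraph par).edgeFinset.card = 11)
    (h3 : ∀ v, (∃ i, leafV i = v) ↔ (Finset.univ.filter ((parGraph par).Adj v)).card ≤ 1)
    (h4 : ∀ v, ¬ (∃ i, leafV i = v) → (Finset.univ.filter ((parGraph par).Adj v)).card = 3) :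
    PhyloTree 7 where
  V := Fin 12
  finite_V := inferInstance
  graph := parGraph par
  isTree := parGraph_isTree par h1 h2
  leaf := leafV
  leaf_injective := leafV_inj
  mem_range_leaf := fun v => by rw [ncard_neighbor]; exact h3 v
  degree_internal := fun v hv => by rw [ncard_neighbor]; exact h4 v hv

/-- Parent function of the caterpillar. -/
def par1 : Fin 12 → Fin 12 := ![7, 7, 8, 9, 10, 11, 11, 7, 7, 8, 9, 10]

/-- Parent function of the other tree. -/
def par2 : Fin 12 → Fin 12 := ![8, 11, 9, 10, 8, 9, 11, 7, 7, 7, 7, 10]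

/-- The caterpillar. -/
def T1 : PhyloTree 7 := mkTree par1 (by decide) (by decide +kernel) (by decide) (by decide)

/-- The other tree. -/
def T2 : PhyloTree 7 := mkTree par2 (by decide) (by decide +kernel) (by decide) (by decide)

/-- Branch tables: `tab1 v u` is the branch at the internal vertex `v + 7` containing `u`. -/
def tab1 : Fin 5 → Fin 12 → ℕ := ![
  ![0, 1, 2, 2, 2, 2, 2, 9, 2, 2, 2, 2],
  ![1, 1, 0, 2, 2, 2, 2, 1, 9, 2, 2, 2],
  ![1, 1, 1, 0, 2, 2, 2, 1, 1, 9, 2, 2],
  ![1, 1, 1, 1, 0, 2, 2, 1, 1, 1, 9, 2],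
  ![2, 2, 2, 2, 2, 0, 1, 2, 2, 2, 2, 9]]

/-- Branch tables of the second tree. -/
def tab2 : Fin 5 → Fin 12 → ℕ := ![
  ![0, 2, 1, 2, 0, 1, 2, 9, 0, 1, 2, 2],
  ![0, 2, 2, 2, 1, 2, 2, 2, 9, 2, 2, 2],
  ![2, 2, 0, 2, 2, 1, 2, 2, 2, 9, 2, 2],
  ![1, 2, 1, 0, 1, 1, 2, 1, 1, 1, 9, 2],
  ![2, 0, 2, 2, 2, 2, 1, 2, 2, 2, 2, 9]]

/-- The internal vertices. -/
def innerV (v : Fin 5) : Fin 12 := Fin.natAdd 7 v

lemma tab1_ok : ∀ v : Fin 5, ∀ u w : Fin 12, (parGraph par1).Adj u w → u ≠ innerV v →
    w ≠ innerV v → tab1 v u = tab1 v w := by decide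

lemma tab2_ok : ∀ v : Fin 5, ∀ u w : Fin 12, (parGraph par2).Adj u w → u ≠ innerV v →
    w ≠ innerV v → tab2 v u = tab2 v w := by decide

/-- The quartet relation of a table. -/
def Qt (tab : Fin 5 → Fin 12 → ℕ) (i j k l : Fin 7) : Prop :=
  ∀ v : Fin 5, tab v (leafV i) = tab v (leafV j) ∨ tab v (leafV k) = tab v (leafV l)

instance (tab : Fin 5 → Fin 12 → ℕ) (i j k l : Fin 7) : Decidable (Qt tab i j k l) :=
  inferInstanceAs (Decidable (∀ _ : Fin 5, _ ∨ _))

lemma quartet {T : SimpleGraph (Fin 12)} (D : Set (Sym2 (Fin 12))) (r : Setoid (Fin 7))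
    (hr : ∀ i j, r i j ↔ (T.deleteEdges D).Reachable (leafV i) (leafV j))
    (tab : Fin 5 → Fin 12 → ℕ)
    (htab : ∀ v : Fin 5, ∀ u w : Fin 12, T.Adj u w → u ≠ innerV v →
      w ≠ innerV v → tab v u = tab v w)
    (i j k l : Fin 7) (hij : r i j) (hkl : r k l) (hik : ¬ r i k) : Qt tab i j k l := by
  intro v
  by_contra hcon
  push Not at hcon
  have h1 := reach_through (SimpleGraph.deleteEdges_le D) (innerV v) (tab v) (htab v)
    ((hr i j).1 hij) hcon.1
  have h2 := reach_through (SimpleGraph.deleteEdges_le D) (innerV v) (tab v) (htab v)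
    ((hr k l).1 hkl) hcon.2
  exact hik ((hr i k).2 (h1.trans h2.symm))

/-! ### The finite check -/

/-- Both quartet relations, on natural numbers. -/
def Qb (i j k l : ℕ) : Bool :=
  decide (Qt tab1 (Fin.ofNat 7 i) (Fin.ofNat 7 j) (Fin.ofNat 7 k) (Fin.ofNat 7 l)) &&
  decide (Qt tab2 (Fin.ofNat 7 i) (Fin.ofNat 7 j) (Fin.ofNat 7 k) (Fin.ofNat 7 l))

/-- The colour `c` can be given to the element `n`, the elements after `n` having colours `l`. -/
def okB (n c : ℕ) (l : List ℕ) : Bool :=
  (List.range l.length).all (fun j => !(l.getD j 0 == c) ||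
    (List.range l.length).all (fun k => (l.getD k 0 == c) ||
      (List.range k).all (fun k' => !(l.getD k 0 == l.getD k' 0) ||
        Qb n (n + 1 + j) (n + 1 + k) (n + 1 + k'))))

/-- The final test. -/
def finB (l : List ℕ) : Bool :=
  (List.range 4).any (fun c => !(l.contains c)) ||
  (List.range 4).any (fun c => l.count c == 4 &&
    (List.range 7).all (fun i => (List.range 7).all (fun j =>
      i == j || !(l.getD i 0 == l.getD j 0) || l.getD i 0 == c)))

/-- Enumeration of the admissible colourings. -/
def enumB : ℕ → List ℕ → Bool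
  | 0, l => finB l
  | n + 1, l => (List.range 4).all (fun c => !(okB n c l) || enumB n (c :: l))

lemma enumB_true : enumB 7 [] = true := by decide +kernel

lemma enumB_sound (p : ℕ → ℕ) (hp : ∀ i, p i < 4)
    (hQ : ∀ i j k l, i < 7 → j < 7 → k < 7 → l < 7 → p i = p j → p k = p l → p i ≠ p k →
      Qb i j k l = true) :
    ∀ n, n ≤ 7 → enumB n ((List.range' n (7 - n)).map p) = true →
      finB ((List.range' 0 7).map p) = true := by
  intro n
  induction n with
  | zero => intro _ h; simpa [enumB] using h
  | succ n ih =>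
    intro hn h
    apply ih (by omega)
    have e1 : (List.range' n (7 - n)).map p = p n :: (List.range' (n + 1) (7 - (n + 1))).map p := by
      have : 7 - n = (7 - (n + 1)) + 1 := by omega
      rw [this, List.range'_succ]
      simp
    rw [e1]
    rw [enumB, List.all_eq_true] at h
    have h2 := h (p n) (List.mem_range.2 (hp n))
    rw [Bool.or_eq_true] at h2
    rcases h2 with h2 | h2
    · exfalso
      rw [Bool.not_eq_true'] at h2
      have hlen : ((List.range' (n + 1) (7 - (n + 1))).map p).length = 7 - (n + 1) := by simp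
      have hget : ∀ j < 7 - (n + 1),
          ((List.range' (n + 1) (7 - (n + 1))).map p).getD j 0 = p (n + 1 + j) := by
        intro j hj
        rw [List.getD_eq_getElem _ _ (by rw [hlen]; exact hj), List.getElem_map,
          List.getElem_range', one_mul]
      have h3 : okB n (p n) ((List.range' (n + 1) (7 - (n + 1))).map p) = true := by
        rw [okB, hlen]
        simp only [List.all_eq_true, List.mem_range, Bool.or_eq_true, Bool.not_eq_true',
          beq_eq_false_iff_ne, beq_iff_eq, ne_eq]
        intro j hj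
        by_cases hjc : p (n + 1 + j) = p n
        · right
          intro k hk
          by_cases hkc : p (n + 1 + k) = p n
          · left; rw [hget k hk]; exact hkc
          · right
            intro k' hk'
            by_cases hkk : p (n + 1 + k) = p (n + 1 + k')
            · right
              refine hQ _ _ _ _ (by omega) (by omega) (by omega) (by omega) hjc.symm hkk ?_
              exact fun h => hkc h.symm
            · left
              rw [hget k hk, hget k' (by omega)]
              exact hkk
        · left; rw [hget j hj]; exact hjc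
      rw [h3] at h2
      exact absurd h2 (by simp)
    · exact h2

lemma upper_aux (r : Setoid (Fin 7)) (h1 : r ∈ T1.partitions) (h2 : r ∈ T2.partitions)
    (h3 : Nat.card (Quotient r) = 4) : r ∈ base := by
  obtain ⟨D1, -, hD1⟩ := h1
  obtain ⟨D2, -, hD2⟩ := h2
  have q1 : ∀ i j k l, r i j → r k l → ¬ r i k → Qt tab1 i j k l :=
    fun i j k l => quartet D1 r hD1 tab1 tab1_ok i j k l
  have q2 : ∀ i j k l, r i j → r k l → ¬ r i k → Qt tab2 i j k l :=
    fun i j k l => quartet D2 r hD2 tab2 tab2_ok i j k l
  have : Finite (Quotient r) := Nat.finite_of_card_ne_zero (by omega)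
  let e : Quotient r ≃ Fin 4 := Finite.equivFinOfCardEq h3
  set p : Fin 7 → Fin 4 := fun i => e (Quotient.mk r i) with hp
  have hpr : ∀ i j, p i = p j ↔ r i j := by
    intro i j
    rw [hp]
    simp only [EmbeddingLike.apply_eq_iff_eq]
    exact Quotient.eq
  have hsurj : Function.Surjective p := e.surjective.comp Quotient.mk_surjective
  set p' : ℕ → ℕ := fun i => (p (Fin.ofNat 7 i)).val with hp'
  have hof : ∀ i : Fin 7, Fin.ofNat 7 i.val = i := by
    intro i
    apply Fin.ext
    simp only [Fin.ofNat]
    exact Nat.mod_eq_of_lt i.isLt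
  have hfin := enumB_sound p' (fun i => (p (Fin.ofNat 7 i)).isLt) (by
    intro i j k l hi hj hk hl hij hkl hik
    have a1 : p (Fin.ofNat 7 i) = p (Fin.ofNat 7 j) := Fin.ext hij
    have a2 : p (Fin.ofNat 7 k) = p (Fin.ofNat 7 l) := Fin.ext hkl
    have a3 : p (Fin.ofNat 7 i) ≠ p (Fin.ofNat 7 k) := fun h => hik (congrArg Fin.val h)
    rw [Qb, Bool.and_eq_true, decide_eq_true_eq, decide_eq_true_eq]
    rw [hpr] at a1 a2
    rw [Ne, hpr] at a3
    exact ⟨q1 _ _ _ _ a1 a2 a3, q2 _ _ _ _ a1 a2 a3⟩) 7 le_rfl enumB_true
  have hlist : (List.range' 0 7).map p' = [(p 0).val, (p 1).val, (p 2).val, (p 3).val, (p 4).val,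
      (p 5).val, (p 6).val] := rfl
  have hget : ∀ i : Fin 7, ((List.range' 0 7).map p').getD i.val 0 = (p i).val := by
    intro i
    rw [hlist]
    fin_cases i <;> rfl
  have hmem : ∀ i : Fin 7, (p i).val ∈ (List.range' 0 7).map p' := by
    intro i
    rw [List.mem_map]
    refine ⟨i.val, ?_, ?_⟩
    · rw [List.mem_range']
      exact ⟨i.val, i.isLt, by simp⟩
    · simp only [hp', hof]
  rw [finB, Bool.or_eq_true] at hfin
  rcases hfin with hfin | hfin
  · exfalso
    rw [List.any_eq_true] at hfin
    obtain ⟨c, hc, hcon⟩ := hfin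
    rw [List.mem_range] at hc
    obtain ⟨i, hi⟩ := hsurj ⟨c, hc⟩
    rw [Bool.not_eq_true'] at hcon
    have hm := hmem i
    rw [hi] at hm
    rw [← Bool.not_eq_true, List.contains_iff_mem] at hcon
    exact hcon hm
  · rw [List.any_eq_true] at hfin
    obtain ⟨c, hc, hcc⟩ := hfin
    rw [List.mem_range] at hc
    rw [Bool.and_eq_true, beq_iff_eq] at hcc
    obtain ⟨hcount, hall⟩ := hcc
    have hcc : ((List.range' 0 7).map p').count c =
        (Finset.univ.filter (fun i => (p i).val = c)).card := by
      rw [hlist, Finset.card_filter, Fin.sum_univ_seven]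
      simp only [List.count_cons, List.count_nil, beq_iff_eq]
      ring
    simp only [List.all_eq_true, List.mem_range, Bool.or_eq_true, Bool.not_eq_true',
      beq_eq_false_iff_ne, beq_iff_eq, ne_eq] at hall
    refine ⟨Finset.univ.filter (fun i => (p i).val = c), ?_, ?_⟩
    · change Finset.card _ = 4
      rw [← hcc]; exact hcount
    · ext i j
      rw [rA_apply, ← hpr]
      constructor
      · intro h
        by_cases hij : i = j
        · rw [hij]
        · have := pA_eq hij h
          simp only [Finset.mem_filter, Finset.mem_univ, true_and] at this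
          exact Fin.ext (this.1.trans this.2.symm)
      · intro h
        by_cases hij : i = j
        · rw [hij]
        · apply pA_of_mem
          · simp only [Finset.mem_filter, Finset.mem_univ, true_and]
            have := hall i.val i.isLt j.val j.isLt
            rw [hget, hget] at this
            rcases this with (h1 | h1) | h1
            · exact absurd (Fin.ext h1) hij
            · exact absurd (congrArg Fin.val h) h1
            · exact h1
          · simp only [Finset.mem_filter, Finset.mem_univ, true_and]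
            have := hall j.val j.isLt i.val i.isLt
            rw [hget, hget] at this
            rcases this with (h1 | h1) | h1
            · exact absurd (Fin.ext h1).symm hij
            · exact absurd (congrArg Fin.val h.symm) h1
            · exact h1

lemma upper : common T1 T2 4 ≤ 35 := by
  have h : T1.partitions ∩ T2.partitions ∩ {r | Nat.card (Quotient r) = 4} ⊆ base :=
    fun r hr => upper_aux r hr.1.1 hr.1.2 hr.2
  have := Set.ncard_le_ncard h (Set.toFinite _)
  rw [base_ncard] at this
  exact this

/-- The iso of the spine of `T1` with the path. -/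
lemma T1_caterpillar : T1.IsCaterpillar := by
  have hr : ∀ v : Fin 5, innerV v ∉ Set.range leafV := by
    intro v
    rw [Set.mem_range]
    revert v
    decide
  have hs : ∀ x : Fin 12, x ∉ Set.range leafV → ∃ v, innerV v = x := by
    intro x
    rw [Set.mem_range]
    revert x
    decide
  have hinj : Function.Injective innerV := by
    intro a b h
    exact (Fin.natAdd_injective 5 7) h
  let f : Fin 5 → {v | v ∉ Set.range T1.leaf} := fun v => ⟨innerV v, hr v⟩
  have hf : Function.Bijective f := by
    constructor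
    · intro a b h
      exact hinj (congrArg Subtype.val h)
    · rintro ⟨x, hx⟩
      obtain ⟨v, hv⟩ := hs x hx
      exact ⟨v, Subtype.ext hv⟩
  refine ⟨(RelIso.symm ⟨Equiv.ofBijective f hf, ?_⟩)⟩
  intro a b
  change (parGraph par1).Adj (innerV a) (innerV b) ↔ _
  rw [SimpleGraph.pathGraph_adj]
  revert a b
  decide

/-- `s 7 4 < c 7 4`. -/
theorem main : s 7 4 ≤ 35 ∧ 36 ≤ c 7 4 := by
  constructor
  · refine le_trans (Nat.sInf_le ⟨T1, T2, rfl⟩) upper
  · have hne : {m | ∃ T F : PhyloTree 7, T.IsCaterpillar ∧ F.IsCaterpillar ∧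
        m = common T F 4}.Nonempty := ⟨_, T1, T1, T1_caterpillar, T1_caterpillar, rfl⟩
    obtain ⟨T, F, hT, hF, h⟩ := Nat.sInf_mem hne
    rw [c, h]
    exact lower T F hT hF

end Pool.Agent.H384R3
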